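import Pool.Agent.H68.WH.B

set_option autoImplicit false

open scoped InnerProductSpace
open Filter Topology PowerSeries

namespace Pool.Agent.H68.WH

variable {E : Type*} [NormedAddCommGroup E] [InnerProductSpace ℂ E] [CompleteSpace E]

namespace Data
variable (d : Data E)

/-- Coefficient power series of a vector. -/
noncomputable def J : E →ₗ[ℂ] PowerSeries ℂ where
  toFun x := PowerSeries.mk fun n => ⟪d.e n, x⟫_ℂ
  map_add' x y := by ext n; simp
  map_smul' c x := by ext n; simp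

omit [CompleteSpace E] in
theorem J_coeff (x : E) (n : ℕ) : coeff n (d.J x) = ⟪d.e n, x⟫_ℂ :=
  coeff_mk n (fun n => ⟪d.e n, x⟫_ℂ)

omit [CompleteSpace E] in
theorem J_inj (x y : E) (h : d.J x = d.J y) : x = y :=
  vec_ext d.e _ _ fun i => by rw [← d.J_coeff, ← d.J_coeff, h]

omit [CompleteSpace E] in
theorem J_S (x : E) : d.J (d.S x) = X * d.J x := by
  ext n
  cases n with
  | zero => rw [coeff_zero_X_mul, J_coeff, d.S0]
  | succ n => rw [coeff_succ_X_mul, J_coeff, J_coeff, d.S1]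

omit [CompleteSpace E] in
theorem J_e0 : d.J (d.e 0) = 1 := by
  ext n
  rw [J_coeff, inner_basis, coeff_one]

omit [CompleteSpace E] in
theorem J_V (x : E) : derivative ℂ (d.J (d.V x)) = d.J x := by
  ext n
  rw [coeff_derivative, J_coeff, J_coeff, d.V1]
  have : (n : ℂ) + 1 ≠ 0 := by exact_mod_cast Nat.succ_ne_zero n
  field_simp

omit [CompleteSpace E] in
theorem J_V0 (x : E) : constantCoeff (d.J (d.V x)) = 0 := by
  rw [← coeff_zero_eq_constantCoeff_apply, J_coeff, d.V0]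

end Data

theorem series_chain (lam a c : ℂ) (Q W : PowerSeries ℂ) (n : ℕ)
    (hQ : (1 - C (starRingEnd ℂ a) * X) * Q = 1)
    (hW : derivative ℂ W = C c * Q * (C lam * (X - C a) * Q) ^ n *
      (C lam + C (starRingEnd ℂ a) * (C lam * (X - C a) * Q)))
    (hW0 : constantCoeff W = 0) :
    W = C c * (C ((n : ℂ) + 1)⁻¹ * (C lam * (X - C a) * Q) ^ (n + 1)
      - C ((-(lam * a)) ^ (n + 1) / ((n : ℂ) + 1))) := by
  have hn : (n : ℂ) + 1 ≠ 0 := by exact_mod_cast Nat.succ_ne_zero n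
  have hQ0 : constantCoeff Q = 1 := by
    have := congrArg constantCoeff hQ
    simpa using this
  have hdQ : derivative ℂ Q = C (starRingEnd ℂ a) * Q ^ 2 := by
    have h1 := congrArg (derivative ℂ) hQ
    rw [Derivation.leibniz, map_sub, Derivation.leibniz, derivative_C, derivative_X,
      derivative_one] at h1
    simp only [smul_eq_mul, mul_one, mul_zero, add_zero, zero_sub] at h1
    linear_combination Q * h1 - derivative ℂ Q * hQ
  have hdP : derivative ℂ (C lam * (X - C a) * Q) =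
      Q * (C lam + C (starRingEnd ℂ a) * (C lam * (X - C a) * Q)) := by
    rw [Derivation.leibniz, Derivation.leibniz, map_sub, derivative_C, derivative_C, derivative_X,
      hdQ]
    simp only [smul_eq_mul]
    ring
  refine derivative.ext ?_ ?_
  · rw [hW, Derivation.leibniz, derivative_C, map_sub, derivative_C, Derivation.leibniz,
      derivative_C, Derivation.leibniz_pow, hdP]
    simp only [smul_eq_mul, mul_zero, add_zero, sub_zero, Nat.add_sub_cancel, nsmul_eq_mul]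
    have h1 : (C ((n : ℂ) + 1)⁻¹ : PowerSeries ℂ) * ((n + 1 : ℕ) : PowerSeries ℂ) = 1 := by
      rw [← map_natCast (C : ℂ →+* PowerSeries ℂ), ← map_mul]
      push_cast
      rw [inv_mul_cancel₀ hn, map_one]
    linear_combination (-(C c * Q * (C lam * (X - C a) * Q) ^ n *
      (C lam + C (starRingEnd ℂ a) * (C lam * (X - C a) * Q)))) * h1
  · rw [hW0]
    simp [hQ0]
    right
    field_simp
    ring

namespace Data
variable (d : Data E)

theorem exists_rho (lam a : ℂ) (hl : ‖lam‖ = 1) (ha : ‖a‖ < 1) :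
    ∃ ρ : (E →L[ℂ] E)ˣ, ‖(ρ : E →L[ℂ] E)‖ ≤ 1 ∧ ‖((ρ⁻¹ : (E →L[ℂ] E)ˣ) : E →L[ℂ] E)‖ ≤ 1 ∧
      lam • (d.S - a • 1) * (ρ : E →L[ℂ] E) = (1 - starRingEnd ℂ a • d.S) * ρ * d.S ∧
      ∀ n : ℕ, d.V ((ρ : E →L[ℂ] E) (lam • d.e n + starRingEnd ℂ a • d.S (d.e n))) =
        (1 - starRingEnd ℂ a • d.S) ((ρ : E →L[ℂ] E)
          (d.V (d.e n) - ((-(lam * a)) ^ (n + 1) / ((n : ℂ) + 1)) • d.e 0)) := by
  set ac := starRingEnd ℂ a with hac
  have hacn : ‖ac‖ < 1 := by simpa [hac] using ha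
  obtain ⟨u, hu⟩ := d.isUnit_sub 1 ac (by simpa using hacn)
  rw [one_smul] at hu
  set R : E →L[ℂ] E := ↑u⁻¹ with hR
  set P : E →L[ℂ] E := 1 - ac • d.S with hP
  have hPR : P * R = 1 := by rw [← hu, hR]; simp
  have hRP : R * P = 1 := by rw [← hu, hR]; simp
  have hPRx : ∀ x, P (R x) = x := fun x => by rw [← mul_apply_eq_comp, hPR]; simp
  have hPx : ∀ x, P x = x - ac • d.S x := fun x => by simp [hP]
  obtain ⟨Φ, hΦ⟩ : ∃ Φ : E →L[ℂ] E, Φ = lam • (d.S - a • 1) * R := ⟨_, rfl⟩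
  have hΦx : ∀ x, Φ x = lam • (d.S (R x) - a • R x) := fun x => by simp [hΦ]
  have hll : starRingEnd ℂ lam * lam = 1 := by
    rw [Complex.conj_mul', hl]; simp
  -- the Blaschke factor of the shift is an isometry
  have hΦi : ∀ x y, ⟪Φ x, Φ y⟫_ℂ = ⟪x, y⟫_ℂ := by
    intro x y
    conv_rhs => rw [← hPRx x, ← hPRx y]
    rw [hΦx, hΦx, hPx, hPx]
    simp only [inner_smul_left, inner_smul_right, inner_sub_left, inner_sub_right, d.hSi, hac,
      Complex.conj_conj]
    linear_combination (⟪R x, R y⟫_ℂ - a * ⟪d.S (R x), R y⟫_ℂ -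
      starRingEnd ℂ a * ⟪R x, d.S (R y)⟫_ℂ + starRingEnd ℂ a * a * ⟪R x, R y⟫_ℂ) * hll
  set w : E := R (d.e 0) with hw
  have hw1 : w = d.e 0 + ac • d.S w := by
    have := hPRx (d.e 0)
    rw [hPx] at this
    rw [← this, ← hw]; abel
  have hwS : ∀ y, ⟪w, d.S y⟫_ℂ = a * ⟪w, y⟫_ℂ := by
    intro y
    conv_lhs => rw [hw1]
    rw [inner_add_left, d.S0, inner_smul_left, d.hSi, hac]; simp
  have hwΦ : ∀ y, ⟪w, Φ y⟫_ℂ = 0 := by
    intro y
    rw [hΦx, inner_smul_right, inner_sub_right, hwS, inner_smul_right]; simp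
  have hww : (1 - ac * a) * ⟪w, w⟫_ℂ = 1 := by
    have h1 : ⟪w, w⟫_ℂ = ⟪w, d.e 0 + ac • d.S w⟫_ℂ := by rw [← hw1]
    have h2 : ⟪w, d.e 0⟫_ℂ = 1 := by
      rw [← inner_conj_symm]
      conv_lhs => rw [hw1]
      rw [inner_add_right, inner_smul_right, d.S0, inner_basis]; simp
    rw [inner_add_right, inner_smul_right, hwS, h2] at h1
    linear_combination h1
  have hpos : 0 < 1 - ‖a‖ ^ 2 := by nlinarith [norm_nonneg a]
  obtain ⟨c, hc⟩ : ∃ c : ℂ, c = ((Real.sqrt (1 - ‖a‖ ^ 2) : ℝ) : ℂ) := ⟨_, rfl⟩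
  have hcc : starRingEnd ℂ c = c := by rw [hc, Complex.conj_ofReal]
  have hc2 : c * c = 1 - ac * a := by
    rw [hc, ← Complex.ofReal_mul, Real.mul_self_sqrt hpos.le, hac, Complex.conj_mul']
    push_cast; rfl
  have hc0 : c ≠ 0 := by
    rw [hc]; exact_mod_cast (Real.sqrt_pos.2 hpos).ne'
  set k : E := c • w with hk
  have hkk : ⟪k, k⟫_ℂ = 1 := by
    rw [hk, inner_smul_left, inner_smul_right, hcc, ← mul_assoc, hc2, hww]
  have hkΦ : ∀ y, ⟪k, Φ y⟫_ℂ = 0 := by
    intro y; rw [hk, inner_smul_left, hwΦ, mul_zero]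
  have hΦpow : ∀ (n : ℕ) x y, ⟪(Φ ^ n) x, (Φ ^ n) y⟫_ℂ = ⟪x, y⟫_ℂ := by
    intro n x y
    induction n with
    | zero => simp
    | succ n ih => rw [pow_succ', mul_apply_eq_comp, mul_apply_eq_comp, hΦi, ih]
  have hlt : ∀ i j : ℕ, i < j → ⟪(Φ ^ i) k, (Φ ^ j) k⟫_ℂ = 0 := by
    intro i j hij
    obtain ⟨m, rfl⟩ := Nat.exists_eq_add_of_lt hij
    rw [add_assoc, pow_add, mul_apply_eq_comp, hΦpow, pow_succ', mul_apply_eq_comp, hkΦ]
  have horth : Orthonormal ℂ (fun n : ℕ => (Φ ^ n) k) := by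
    rw [orthonormal_iff_ite]
    intro i j
    rcases lt_trichotomy i j with h | h | h
    · rw [hlt i j h, if_neg h.ne]
    · subst h; rw [hΦpow, hkk, if_pos rfl]
    · rw [← inner_conj_symm, hlt j i h, if_neg h.ne']; simp
  obtain ⟨ρ, hρ, hρi⟩ := exists_iso d.e _ horth
  have hρS : ρ * d.S = Φ * ρ := clm_ext d.e _ _ fun i => by
    rw [mul_apply_eq_comp, mul_apply_eq_comp, d.hS, hρ, hρ, pow_succ', mul_apply_eq_comp]
  have hSP : d.S * P = P * d.S := by
    rw [hP]; simp [mul_sub, sub_mul]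
  have hSR : d.S * R = R * d.S := by
    calc d.S * R = R * P * d.S * R := by rw [hRP, one_mul]
      _ = R * d.S * (P * R) := by rw [mul_assoc R P, ← hSP]; simp only [mul_assoc]
      _ = R * d.S := by rw [hPR, mul_one]
  have hPΦ : P * Φ = lam • (d.S - a • 1) := by
    have : (d.S - a • 1) * R = R * (d.S - a • 1) := by
      simp [mul_sub, sub_mul, hSR]
    rw [hΦ, smul_mul_assoc, this, mul_smul_comm, ← mul_assoc, hPR, one_mul]
  have hi : lam • (d.S - a • 1) * ρ = P * ρ * d.S := by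
    rw [mul_assoc, hρS, ← mul_assoc, hPΦ]
  -- surjectivity
  obtain ⟨v, hv⟩ := d.isUnit_sub lam (-ac) (by rw [norm_neg, hl]; exact hacn)
  have hSρ : d.S * ρ * v = ρ * (d.S + (lam * a) • 1) := by
    rw [hv]
    have := hi
    rw [hP] at this
    simp only [smul_sub, sub_mul, mul_add, smul_mul_assoc, mul_smul_comm, one_mul,
      mul_one, neg_smul, smul_smul, sub_neg_eq_add, mul_assoc] at this ⊢
    rw [sub_eq_sub_iff_add_eq_add] at this
    rw [this]
  have hrange : ∀ n, d.e n ∈ LinearMap.range (ρ : E →ₗ[ℂ] E) := by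
    have hSinv : ∀ x ∈ LinearMap.range (ρ : E →ₗ[ℂ] E), d.S x ∈ LinearMap.range (ρ : E →ₗ[ℂ] E) := by
      rintro _ ⟨y, rfl⟩
      refine ⟨(d.S + (lam * a) • 1) ((↑v⁻¹ : E →L[ℂ] E) y), ?_⟩
      change (ρ * (d.S + (lam * a) • 1) * ↑v⁻¹) y = (d.S * ρ) y
      rw [← hSρ]; simp
    intro n
    induction n with
    | zero =>
      have hk0 : k ∈ LinearMap.range (ρ : E →ₗ[ℂ] E) := ⟨d.e 0, by simpa using hρ 0⟩
      have hw0 : w ∈ LinearMap.range (ρ : E →ₗ[ℂ] E) := by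
        have : w = c⁻¹ • k := by rw [hk, smul_smul, inv_mul_cancel₀ hc0, one_smul]
        rw [this]; exact Submodule.smul_mem _ _ hk0
      have : d.e 0 = w - ac • d.S w := by rw [eq_sub_iff_add_eq, ← hw1]
      rw [this]
      exact Submodule.sub_mem _ hw0 (Submodule.smul_mem _ _ (hSinv _ hw0))
    | succ n ih => rw [← d.hS]; exact hSinv _ ih
  have h1 : star ρ * ρ = 1 := by
    ext x
    refine ext_inner_left ℂ fun y => ?_
    rw [mul_apply_eq_comp, ContinuousLinearMap.star_eq_adjoint,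
      ContinuousLinearMap.adjoint_inner_right, hρi]
    simp
  have h2 : ρ * star ρ = 1 := clm_ext d.e _ _ fun i => by
    obtain ⟨y, hy⟩ := hrange i
    have hy' : ρ y = d.e i := hy
    rw [← hy', mul_apply_eq_comp, ← mul_apply_eq_comp (star ρ), h1]; simp
  have hρn : ‖ρ‖ ≤ 1 := opNorm_of_inner ρ hρi
  refine ⟨⟨ρ, star ρ, h2, h1⟩, hρn, by simpa using hρn, hi, fun n => ?_⟩
  change d.V (ρ _) = P (ρ _)
  have hJP : ∀ x, d.J (P x) = (1 - C ac * X) * d.J x := by
    intro x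
    rw [hPx, map_sub, map_smul, d.J_S, smul_eq_C_mul]; ring
  set Q := d.J w with hQd
  have hQ : (1 - C ac * X) * Q = 1 := by rw [hQd, ← hJP, hw, hPRx, d.J_e0]
  have hJR : ∀ x, d.J (R x) = Q * d.J x := by
    intro x
    have := hJP (R x)
    rw [hPRx] at this
    linear_combination (-Q) * this - d.J (R x) * hQ
  have hJΦ : ∀ x, d.J (Φ x) = (C lam * (X - C a) * Q) * d.J x := by
    intro x
    rw [hΦx, map_smul, map_sub, map_smul, d.J_S, hJR, smul_eq_C_mul, smul_eq_C_mul]; ring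
  have hJρ : ∀ m : ℕ, d.J (ρ (d.e m)) = C c * Q * (C lam * (X - C a) * Q) ^ m := by
    intro m
    rw [hρ]
    induction m with
    | zero => simp [hk, smul_eq_C_mul, hQd]
    | succ m ih => rw [pow_succ', mul_apply_eq_comp, hJΦ, ih]; ring
  apply d.J_inj
  rw [series_chain lam a c Q _ n hQ ?_ (d.J_V0 _)]
  · rw [hJP, d.hV, map_sub, map_smul, map_smul, map_sub, map_smul, map_smul, hJρ, hJρ,
      smul_eq_C_mul, smul_eq_C_mul]
    linear_combination (-(C c * (C ((n : ℂ) + 1)⁻¹ * (C lam * (X - C a) * Q) ^ (n + 1)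
      - C ((-(lam * a)) ^ (n + 1) / ((n : ℂ) + 1))))) * hQ
  · rw [d.J_V, d.hS, map_add, map_smul, map_smul, map_add, map_smul, map_smul, hJρ, hJρ,
      smul_eq_C_mul, smul_eq_C_mul]
    ring

end Data

end Pool.Agent.H68.WH
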