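import Pool.Agent.H68.WH.D

set_option autoImplicit false

open scoped InnerProductSpace
open Filter Topology

namespace Pool.Agent.H68.WH

/-- Shifted harmonic sums. -/
noncomputable def hs (k n : ℕ) : ℝ := ∑ j ∈ Finset.range n, (((k + j : ℕ) : ℝ) + 1)⁻¹

theorem hs_tendsto (k : ℕ) : Tendsto (hs k) atTop atTop := by
  have h1 : ¬ Summable (fun j : ℕ => (((k + j : ℕ) : ℝ) + 1)⁻¹) := by
    intro h
    apply Real.not_summable_natCast_inv
    rw [← summable_nat_add_iff (k + 1)]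
    refine h.congr fun j => ?_
    push_cast; ring_nf
  exact (not_summable_iff_tendsto_nat_atTop_of_nonneg fun j => by positivity).1 h1

theorem hs_succ (k n : ℕ) : ((hs k (n + 1) : ℝ) : ℂ) = hs k n + (((k + n : ℕ) : ℂ) + 1)⁻¹ := by
  rw [hs, Finset.sum_range_succ]; push_cast; rw [hs]; push_cast; rfl

theorem zero_of_bdd (k : ℕ) (c : ℂ) (C : ℝ) (h : ∀ n, ‖(hs k n : ℂ) * c‖ ≤ C) : c = 0 := by
  by_contra hc
  have hc' : 0 < ‖c‖ := norm_pos_iff.2 hc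
  obtain ⟨n, hn⟩ := ((hs_tendsto k).eventually_gt_atTop (C / ‖c‖)).exists
  have h1 := h n
  rw [norm_mul, Complex.norm_real, Real.norm_eq_abs] at h1
  rw [div_lt_iff₀ hc'] at hn
  have := le_abs_self (hs k n)
  nlinarith

variable {E : Type*} [NormedAddCommGroup E] [InnerProductSpace ℂ E] [CompleteSpace E]
  {H : Type*} [NormedAddCommGroup H] [InnerProductSpace ℂ H] [CompleteSpace H]

variable (d : Data E) (s : Split E H)

section
omit [CompleteSpace E] [CompleteSpace H]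

theorem coeff_le (n : ℕ) (x : E) : ‖⟪d.e n, x⟫_ℂ‖ ≤ ‖x‖ := by
  have := norm_inner_le_norm (𝕜 := ℂ) (d.e n) x
  rwa [d.e.orthonormal.1 n, one_mul] at this

theorem p1_T (x : H) : s.p1 (TT d s x) = d.S (s.p1 x) + d.V (s.p2 x) := s.p1_blk _ _ _ x

theorem p2_T (x : H) : s.p2 (TT d s x) = d.S (s.p2 x) := s.p2_blk _ _ _ x

theorem p2_Tpow (n : ℕ) (x : H) : s.p2 ((TT d s ^ n) x) = (d.S ^ n) (s.p2 x) := by
  induction n with
  | zero => simp
  | succ n ih => rw [pow_succ', pow_succ', mul_apply_eq_comp, mul_apply_eq_comp, p2_T, ih]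

theorem p1_Tpow (k n : ℕ) (x : H) : ⟪d.e (k + n), s.p1 ((TT d s ^ n) x)⟫_ℂ =
    ⟪d.e k, s.p1 x⟫_ℂ + (hs k n : ℂ) * ⟪d.e k, s.p2 x⟫_ℂ := by
  induction n with
  | zero => simp [hs]
  | succ n ih =>
    rw [pow_succ', mul_apply_eq_comp, p1_T, inner_add_right, ← add_assoc, d.S1, d.V1, ih,
      p2_Tpow, d.Spow_inner, hs_succ]
    ring

theorem T_i1 (x : E) : TT d s (s.i1 x) = s.i1 (d.S x) :=
  s.ext' _ _ (by rw [p1_T, s.h11, s.h21, s.h11]; simp) (by rw [p2_T, s.h21, s.h21]; simp)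

theorem Tpow_i1 (n : ℕ) (x : E) : (TT d s ^ n) (s.i1 x) = s.i1 ((d.S ^ n) x) := by
  induction n with
  | zero => simp
  | succ n ih => rw [pow_succ', pow_succ', mul_apply_eq_comp, mul_apply_eq_comp, ih, T_i1]

theorem eq_i1 (x : H) (h : s.p2 x = 0) : x = s.i1 (s.p1 x) := by
  have := s.hid x
  rw [h, map_zero, add_zero] at this
  exact this.symm

theorem Tpow_i2 (n : ℕ) : (TT d s ^ n) (s.i2 (d.e 0)) =
    (hs 0 n : ℂ) • s.i1 (d.e n) + s.i2 (d.e n) := by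
  induction n with
  | zero => simp [hs]
  | succ n ih =>
    rw [pow_succ', mul_apply_eq_comp, ih]
    refine s.ext' _ _ ?_ ?_
    · simp only [p1_T, map_add, map_smul, s.h11, s.h12, s.h21, s.h22, d.hS, d.hV, hs_succ,
        add_smul]
      simp
    · simp only [p2_T, map_add, map_smul, s.h21, s.h22, d.hS]
      simp

theorem of_bdd (x : H) (C : ℝ) (h : ∀ n, ‖(TT d s ^ n) x‖ ≤ C) : s.p2 x = 0 := by
  refine vec_ext d.e _ _ fun k => ?_
  rw [inner_zero_right]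
  refine zero_of_bdd k _ (‖s.p1‖ * C + ‖s.p1 x‖) fun n => ?_
  rw [eq_sub_of_add_eq' (p1_Tpow d s k n x).symm]
  refine (norm_sub_le _ _).trans (add_le_add ((coeff_le d _ _).trans ?_) (coeff_le d _ _))
  exact (s.p1.le_opNorm _).trans (mul_le_mul_of_nonneg_left (h n) (norm_nonneg _))

theorem comm_inv (A : H →L[ℂ] H) (hA : A * TT d s = TT d s * A) (x : H) (hx : s.p2 x = 0) :
    s.p2 (A x) = 0 := by
  refine of_bdd d s _ (‖A‖ * (‖s.i1‖ * ‖s.p1 x‖)) fun n => ?_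
  have : TT d s ^ n * A = A * TT d s ^ n := ((Commute.pow_right hA n).eq).symm
  rw [← mul_apply_eq_comp, this, mul_apply_eq_comp, eq_i1 s x hx, Tpow_i1, s.h11]
  refine (A.le_opNorm _).trans (mul_le_mul_of_nonneg_left ?_ (norm_nonneg _))
  refine (s.i1.le_opNorm _).trans ?_
  rw [d.Spow_norm]

theorem inter_inv (Γ Γ0 : (H →L[ℂ] H)ˣ)
    (h : (Γ : H →L[ℂ] H) * TT d s * ↑Γ⁻¹ = Γ0 * TT d s * ↑Γ0⁻¹)
    (h1 : ∀ x, s.p2 x = 0 → s.p2 ((Γ0 : H →L[ℂ] H) x) = 0)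
    (h2 : ∀ x, s.p2 x = 0 → s.p2 (((Γ0⁻¹ : (H →L[ℂ] H)ˣ) : H →L[ℂ] H) x) = 0) :
    (∀ x, s.p2 x = 0 → s.p2 ((Γ : H →L[ℂ] H) x) = 0) ∧
    (∀ x, s.p2 x = 0 → s.p2 (((Γ⁻¹ : (H →L[ℂ] H)ˣ) : H →L[ℂ] H) x) = 0) := by
  constructor
  · intro x hx
    have hc : ((↑Γ0⁻¹ : H →L[ℂ] H) * Γ) * TT d s = TT d s * (↑Γ0⁻¹ * Γ) := by
      have := congrArg (fun Z => (↑Γ0⁻¹ : H →L[ℂ] H) * Z * Γ) h
      simpa [mul_assoc] using this
    have := h1 _ (comm_inv d s _ hc x hx)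
    rwa [← mul_apply_eq_comp, ← mul_assoc, Units.mul_inv, one_mul] at this
  · intro x hx
    have hc : ((↑Γ⁻¹ : H →L[ℂ] H) * Γ0) * TT d s = TT d s * (↑Γ⁻¹ * Γ0) := by
      have := congrArg (fun Z => (↑Γ⁻¹ : H →L[ℂ] H) * Z * Γ0) h
      simpa [mul_assoc] using this.symm
    have := comm_inv d s _ hc _ (h2 x hx)
    rwa [← mul_apply_eq_comp, mul_assoc, Units.mul_inv, mul_one] at this

end

/-- The ranges of the shift minus small scalars have trivial intersection. -/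
theorem range_inter (k : ℕ) : ∀ μ : E, (∀ w : ℂ, w ≠ 0 → ‖w‖ < 1 → ∃ y, μ = d.S y - w • y) →
    ⟪d.e k, μ⟫_ℂ = 0 := by
  have h0 : ∀ μ : E, (∀ w : ℂ, w ≠ 0 → ‖w‖ < 1 → ∃ y, μ = d.S y - w • y) →
      ⟪d.e 0, μ⟫_ℂ = 0 := by
    intro μ hμ
    rw [← norm_le_zero_iff]
    refine le_of_forall_pos_le_add fun ε hε => ?_
    set t : ℝ := min (1 / 2) (ε / (2 * ‖μ‖ + 1)) with ht
    have ht0 : 0 < t := lt_min (by norm_num) (by positivity)
    have ht1 : t ≤ 1 / 2 := min_le_left _ _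
    have ht2 : t * (2 * ‖μ‖ + 1) ≤ ε := by
      rw [← le_div_iff₀ (by positivity)]; exact min_le_right _ _
    have hn : ‖(t : ℂ)‖ = t := by rw [Complex.norm_real, Real.norm_of_nonneg ht0.le]
    obtain ⟨y, hy⟩ := hμ t (by exact_mod_cast ht0.ne') (by rw [hn]; linarith)
    have h1 : ‖y‖ - t * ‖y‖ ≤ ‖μ‖ := by
      have := norm_sub_norm_le (d.S y) ((t : ℂ) • y)
      rwa [← hy, norm_of_inner _ d.hSi, norm_smul, hn] at this
    have h2 : ‖⟪d.e 0, μ⟫_ℂ‖ ≤ t * ‖y‖ := by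
      rw [hy, inner_sub_right, d.S0, zero_sub, norm_neg, inner_smul_right, norm_mul, hn]
      exact mul_le_mul_of_nonneg_left (coeff_le d _ _) ht0.le
    have h3 : ‖y‖ ≤ 2 * ‖μ‖ := by nlinarith [norm_nonneg y]
    nlinarith
  induction k with
  | zero => exact h0
  | succ k ih =>
    intro μ hμ
    obtain ⟨μ', rfl⟩ := d.exists_pre μ (h0 μ hμ)
    rw [d.S1]
    refine ih μ' fun w hw0 hw => ?_
    obtain ⟨y, hy⟩ := hμ w hw0 hw
    have : ⟪d.e 0, y⟫_ℂ = 0 := by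
      have := congrArg (fun z => ⟪d.e 0, z⟫_ℂ) hy
      simp only [inner_sub_right, d.S0, inner_smul_right] at this
      simpa [hw0] using this
    obtain ⟨y', rfl⟩ := d.exists_pre y this
    refine ⟨y', ?_⟩
    rw [← map_smul, ← map_sub] at hy
    rw [← sub_eq_zero, ← norm_eq_zero, ← norm_of_inner _ d.hSi, map_sub, hy, sub_self, norm_zero]

theorem coeff0 (B : E →L[ℂ] E) (hB : ∀ x, ⟪d.e 0, B (d.S x)⟫_ℂ = 0) (x : E) :
    ⟪d.e 0, B x⟫_ℂ = ⟪d.e 0, B (d.e 0)⟫_ℂ * ⟪d.e 0, x⟫_ℂ := by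
  obtain ⟨y, hy⟩ := d.exists_pre (x - ⟪d.e 0, x⟫_ℂ • d.e 0) (by
    rw [inner_sub_right, inner_smul_right, inner_basis]; simp)
  have := hB y
  rw [hy, map_sub, map_smul, inner_sub_right, inner_smul_right] at this
  linear_combination this

theorem no_eigen (B : E →L[ℂ] E) (lam c1 c2 : ℂ) (hB : ∀ x, B (d.S x) = lam • d.S (B x)) (g : E)
    (hg : c1 • g = c2 • B g) (hne : ∀ k : ℕ, c1 ≠ c2 * lam ^ k * ⟪d.e 0, B (d.e 0)⟫_ℂ) :
    g = 0 := by
  have hBk : ∀ (k : ℕ) x, B ((d.S ^ k) x) = lam ^ k • (d.S ^ k) (B x) := by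
    intro k x
    induction k with
    | zero => simp
    | succ k ih =>
      rw [pow_succ' d.S, mul_apply_eq_comp, mul_apply_eq_comp, hB, ih, map_smul, smul_smul,
        pow_succ']
  have h0 := coeff0 d B fun x => by rw [hB, inner_smul_right, d.S0, mul_zero]
  have hk : ∀ k : ℕ, ∃ g', g = (d.S ^ k) g' := by
    intro k
    induction k with
    | zero => exact ⟨g, by simp⟩
    | succ k ih =>
      obtain ⟨g', hg'⟩ := ih
      have h1 := congrArg (fun z => ⟪d.e (0 + k), z⟫_ℂ) hg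
      simp only [hg', hBk, inner_smul_right, d.Spow_inner] at h1
      rw [h0] at h1
      have h2 : ⟪d.e 0, g'⟫_ℂ = 0 := by
        by_contra h
        apply hne k
        apply mul_right_cancel₀ h
        linear_combination h1
      obtain ⟨y, rfl⟩ := d.exists_pre g' h2
      exact ⟨y, by rw [hg', pow_succ, mul_apply_eq_comp]⟩
  refine vec_ext d.e _ _ fun k => ?_
  obtain ⟨g', hg'⟩ := hk (k + 1)
  have := d.Spow_inner k 0 (d.S g')
  rw [zero_add, d.S0] at this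
  rw [hg', pow_succ, mul_apply_eq_comp, this, inner_zero_right]

omit [CompleteSpace E] [CompleteSpace H] in
theorem diag_eq (Γ : H →L[ℂ] H) (lam : ℂ) (hl : ‖lam‖ = 1)
    (hΓ : Γ * TT d s = lam • (TT d s * Γ)) (hM : ∀ x, s.p2 x = 0 → s.p2 (Γ x) = 0) :
    ⟪d.e 0, s.p1 (Γ (s.i1 (d.e 0)))⟫_ℂ = ⟪d.e 0, s.p2 (Γ (s.i2 (d.e 0)))⟫_ℂ := by
  have hpow : ∀ (n : ℕ) x, Γ ((TT d s ^ n) x) = lam ^ n • (TT d s ^ n) (Γ x) := by
    intro n x
    induction n with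
    | zero => simp
    | succ n ih =>
      rw [pow_succ' (TT d s), mul_apply_eq_comp, mul_apply_eq_comp, ← mul_apply_eq_comp Γ, hΓ,
        smul_apply, mul_apply_eq_comp, ih, map_smul, smul_smul, pow_succ']
  rw [← sub_eq_zero]
  refine zero_of_bdd 0 _ (‖s.p1 (Γ (s.i2 (d.e 0)))‖ + ‖s.p1‖ * (‖Γ‖ * (‖s.i2‖ * 1))) fun n => ?_
  have h1 := congrArg (fun z => ⟪d.e (0 + n), s.p1 z⟫_ℂ) (hpow n (s.i2 (d.e 0)))
  have h2 := congrArg (fun z => ⟪d.e (0 + n), s.p1 z⟫_ℂ) (hpow n (s.i1 (d.e 0)))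
  simp only [Tpow_i2, map_add, map_smul, inner_add_right, inner_smul_right, p1_Tpow] at h1
  simp only [Tpow_i1, d.Spow, map_smul, inner_smul_right, p1_Tpow, hM _ (s.h21 _),
    inner_zero_right, mul_zero, add_zero] at h2
  rw [zero_add] at h1 h2
  rw [h2] at h1
  have h3 : lam ^ n * ((hs 0 n : ℂ) * (⟪d.e 0, s.p1 (Γ (s.i1 (d.e 0)))⟫_ℂ -
      ⟪d.e 0, s.p2 (Γ (s.i2 (d.e 0)))⟫_ℂ)) = lam ^ n * ⟪d.e 0, s.p1 (Γ (s.i2 (d.e 0)))⟫_ℂ
      - ⟪d.e n, s.p1 (Γ (s.i2 (d.e n)))⟫_ℂ := by linear_combination h1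
  have h4 := congrArg norm h3
  rw [norm_mul, norm_pow, hl, one_pow, one_mul] at h4
  rw [h4]
  refine (norm_sub_le _ _).trans (add_le_add ?_ ((coeff_le d _ _).trans ?_))
  · rw [norm_mul, norm_pow, hl, one_pow, one_mul]; exact coeff_le d _ _
  · refine (s.p1.le_opNorm _).trans (mul_le_mul_of_nonneg_left ?_ (norm_nonneg _))
    refine (Γ.le_opNorm _).trans (mul_le_mul_of_nonneg_left ?_ (norm_nonneg _))
    refine (s.i2.le_opNorm _).trans (mul_le_mul_of_nonneg_left ?_ (norm_nonneg _))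
    exact (d.e.orthonormal.1 n).le

end Pool.Agent.H68.WH
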