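import Pool.Agent.H68.WH.F

set_option autoImplicit false

open scoped InnerProductSpace
open Filter Topology

namespace Pool.Agent.H68.WH

variable {E : Type*} [NormedAddCommGroup E] [InnerProductSpace ℂ E] [CompleteSpace E]
  {H : Type*} [NormedAddCommGroup H] [InnerProductSpace ℂ H] [CompleteSpace H]

/-- Rescaling of the second summand of a splitting. -/
noncomputable def scSplit (s : Split E H) (δ : ℝ) (hδ : δ ≠ 0) : Split E H where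
  i1 := s.i1
  i2 := ((δ : ℂ)⁻¹) • s.i2
  p1 := s.p1
  p2 := (δ : ℂ) • s.p2
  h11 := s.h11
  h12 x := by simp [s.h12]
  h21 x := by simp [s.h21]
  h22 x := by
    have : (δ : ℂ) ≠ 0 := by exact_mod_cast hδ
    show (δ : ℂ) • s.p2 ((δ : ℂ)⁻¹ • s.i2 x) = x
    rw [map_smul, s.h22, smul_smul, mul_inv_cancel₀ this, one_smul]
  hid x := by
    have : (δ : ℂ) ≠ 0 := by exact_mod_cast hδ
    have h := s.hid x
    simp only [smul_apply, map_smul, smul_smul]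
    rw [mul_inv_cancel₀ this, one_smul]
    exact h

variable (d : Data E) (s : Split E H)

omit [CompleteSpace H] in
theorem TT_pos2 {F : Type*} [NormedAddCommGroup F] [InnerProductSpace ℂ F] [CompleteSpace F]
    (ε : HilbertBasis ℤ ℂ F) :
    ∀ lam a : ℂ, ‖lam‖ = 1 → ‖a‖ < 1 → ∃ (ρ : (E →L[ℂ] E)ˣ) (K : E →L[ℂ] E),
      ‖(ρ : E →L[ℂ] E)‖ ≤ 1 ∧ ‖((ρ⁻¹ : (E →L[ℂ] E)ˣ) : E →L[ℂ] E)‖ ≤ 1 ∧ ‖K‖ ≤ 8 ∧
      mob (TT d s) lam a = (s.blkU ρ (ρ * K) : H →L[ℂ] H) * TT d s *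
        ↑(s.blkU ρ ((ρ : E →L[ℂ] E) * K))⁻¹ := by
  intro lam a hl ha
  obtain ⟨ρ, hρ1, hρ2, hi, hii⟩ := d.exists_rho lam a hl ha
  obtain ⟨K, hK, hKS⟩ := d.exists_K ε (-(lam * a)) (by rw [norm_neg, norm_mul, hl, one_mul]; exact ha)
  refine ⟨ρ, K, hρ1, hρ2, hK, ?_⟩
  refine mob_of _ _ _ (TT_unit' d s a ha) _ ?_
  have hii' : d.V * ρ * (lam • 1 + starRingEnd ℂ a • d.S) =
      (1 - starRingEnd ℂ a • d.S) * ρ * (d.V + (K * d.S - d.S * K)) :=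
    clm_ext d.e _ _ fun n => by
      have := hii n
      rw [mul_apply_eq_comp, mul_apply_eq_comp, mul_apply_eq_comp, mul_apply_eq_comp, add_apply,
        add_apply, hKS, neg_smul, ← sub_eq_add_neg, ← this]
      simp
  have e1 : lam • (TT d s - a • (1 : H →L[ℂ] H)) =
      (-(lam * a)) • (1 : H →L[ℂ] H) - (-lam) • TT d s := by
    simp only [smul_sub, smul_smul, neg_smul]; abel
  have e2 : (1 : H →L[ℂ] H) - starRingEnd ℂ a • TT d s =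
      (1 : ℂ) • (1 : H →L[ℂ] H) - starRingEnd ℂ a • TT d s := by rw [one_smul]
  have e3 : (-(lam * a)) • (1 : E →L[ℂ] E) - (-lam) • d.S = lam • (d.S - a • 1) := by
    simp only [smul_sub, smul_smul, neg_smul]; abel
  rw [e1, e2, TT, s.blk_lin, s.blk_lin]
  change _ * s.blk _ _ _ = _ * s.blk _ _ _ * _
  rw [s.blk_mul, s.blk_mul, s.blk_mul, e3, one_smul, hi]
  congr 1
  rw [← mul_assoc, hi]
  have h3 : d.V * ↑ρ * (lam • 1 + starRingEnd ℂ a • d.S) =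
      lam • (d.V * ρ) + starRingEnd ℂ a • (d.V * ρ * d.S) := by
    simp [mul_add]
  rw [h3] at hii'
  simp only [neg_smul, neg_neg, smul_mul_assoc, neg_mul, add_mul]
  rw [eq_sub_of_add_eq hii']
  simp only [mul_add, mul_sub, mul_assoc]
  abel

omit [CompleteSpace E] in
/-- Norm bound for upper triangular operators over the rescaled Hilbert square. -/
theorem sc_norm (δ : ℝ) (hδ : 0 < δ) (A B D : E →L[ℂ] E) (hA : ‖A‖ ≤ 1) (hD : ‖D‖ ≤ 1) :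
    ‖(scSplit (sqSplit E) δ hδ.ne').blk A B D‖ ≤ 1 + δ * ‖B‖ := by
  refine ContinuousLinearMap.opNorm_le_bound _ (by positivity) fun x => ?_
  set y1 : WithLp 2 (E × E) := WithLp.toLp 2 (A x.fst, D x.snd) with hy1
  set y2 : WithLp 2 (E × E) := WithLp.toLp 2 ((δ : ℂ) • B x.snd, 0) with hy2
  have hsum : (scSplit (sqSplit E) δ hδ.ne').blk A B D x = y1 + y2 := by
    have hδ' : (δ : ℂ) ≠ 0 := by exact_mod_cast hδ.ne'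
    refine (scSplit (sqSplit E) δ hδ.ne').ext' _ _ ?_ ?_
    · rw [Split.p1_blk]
      show A x.fst + B ((δ : ℂ) • x.snd) = A x.fst + (δ : ℂ) • B x.snd
      rw [map_smul]
    · rw [Split.p2_blk]
      show D ((δ : ℂ) • x.snd) = (δ : ℂ) • (D x.snd + 0)
      rw [map_smul, add_zero]
  have hx1 : ‖x.snd‖ ≤ ‖x‖ := by
    rw [WithLp.prod_norm_eq_of_L2]
    apply Real.le_sqrt_of_sq_le
    nlinarith [sq_nonneg ‖x.fst‖]
  have h1 : ‖y1‖ ≤ ‖x‖ := by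
    rw [WithLp.prod_norm_eq_of_L2, WithLp.prod_norm_eq_of_L2]
    apply Real.sqrt_le_sqrt
    have e1 : ‖A x.fst‖ ≤ ‖x.fst‖ := by
      refine (A.le_opNorm _).trans ?_
      nlinarith [norm_nonneg x.fst]
    have e2 : ‖D x.snd‖ ≤ ‖x.snd‖ := by
      refine (D.le_opNorm _).trans ?_
      nlinarith [norm_nonneg x.snd]
    have e3 := pow_le_pow_left₀ (norm_nonneg _) e1 2
    have e4 := pow_le_pow_left₀ (norm_nonneg _) e2 2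
    show ‖A x.fst‖ ^ 2 + ‖D x.snd‖ ^ 2 ≤ _
    linarith
  have h2 : ‖y2‖ ≤ δ * ‖B‖ * ‖x‖ := by
    have e1 : ‖y2‖ = ‖(δ : ℂ) • B x.snd‖ := by
      rw [WithLp.prod_norm_eq_of_L2]
      show Real.sqrt (‖(δ : ℂ) • B x.snd‖ ^ 2 + ‖(0 : E)‖ ^ 2) = _
      rw [norm_zero]
      simp
    rw [e1, norm_smul, Complex.norm_real, Real.norm_of_nonneg hδ.le, mul_assoc]
    refine mul_le_mul_of_nonneg_left ?_ hδ.le
    exact (B.le_opNorm _).trans (mul_le_mul_of_nonneg_left hx1 (norm_nonneg _))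
  rw [hsum]
  calc ‖y1 + y2‖ ≤ ‖y1‖ + ‖y2‖ := norm_add_le _ _
    _ ≤ ‖x‖ + δ * ‖B‖ * ‖x‖ := add_le_add h1 h2
    _ = (1 + δ * ‖B‖) * ‖x‖ := by ring

omit [CompleteSpace E] [CompleteSpace H] in
theorem blkU_val (u : (E →L[ℂ] E)ˣ) (B : E →L[ℂ] E) :
    ((s.blkU u B : (H →L[ℂ] H)ˣ) : H →L[ℂ] H) = s.blk u B u := rfl

omit [CompleteSpace E] [CompleteSpace H] in
theorem blkU_inv_val (u : (E →L[ℂ] E)ˣ) (B : E →L[ℂ] E) :
    (((s.blkU u B)⁻¹ : (H →L[ℂ] H)ˣ) : H →L[ℂ] H) =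
      s.blk ↑u⁻¹ (-(↑u⁻¹ * B * ↑u⁻¹)) ↑u⁻¹ := rfl

omit [CompleteSpace E] in
theorem norm_one_eight (ρ : (E →L[ℂ] E)ˣ) (K : E →L[ℂ] E) (h1 : ‖(ρ : E →L[ℂ] E)‖ ≤ 1)
    (hK : ‖K‖ ≤ 8) : ‖(ρ : E →L[ℂ] E) * K‖ ≤ 8 := by
  calc _ ≤ ‖(ρ : E →L[ℂ] E)‖ * ‖K‖ := norm_mul_le _ _
    _ ≤ 1 * 8 := by gcongr
    _ = 8 := by norm_num

omit [CompleteSpace E] in
theorem norm_one_eight' (ρ : (E →L[ℂ] E)ˣ) (K : E →L[ℂ] E)
    (h2 : ‖((ρ⁻¹ : (E →L[ℂ] E)ˣ) : E →L[ℂ] E)‖ ≤ 1)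
    (hK : ‖K‖ ≤ 8) : ‖-((↑ρ⁻¹ : E →L[ℂ] E) * (ρ * K) * ↑ρ⁻¹)‖ ≤ 8 := by
  rw [norm_neg, ← mul_assoc, Units.inv_mul, one_mul]
  calc _ ≤ ‖K‖ * ‖(↑ρ⁻¹ : E →L[ℂ] E)‖ := norm_mul_le _ _
    _ ≤ 8 * 1 := by gcongr
    _ = 8 := by norm_num

omit [CompleteSpace E] in
theorem sc_blkU_norm (δ : ℝ) (hδ : 0 < δ) (ρ : (E →L[ℂ] E)ˣ) (K : E →L[ℂ] E)
    (h1 : ‖(ρ : E →L[ℂ] E)‖ ≤ 1) (h2 : ‖((ρ⁻¹ : (E →L[ℂ] E)ˣ) : E →L[ℂ] E)‖ ≤ 1) (hK : ‖K‖ ≤ 8) :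
    ‖(((scSplit (sqSplit E) δ hδ.ne').blkU ρ ((ρ : E →L[ℂ] E) * K) :
        (WithLp 2 (E × E) →L[ℂ] WithLp 2 (E × E))ˣ) :
        WithLp 2 (E × E) →L[ℂ] WithLp 2 (E × E))‖ *
    ‖((((scSplit (sqSplit E) δ hδ.ne').blkU ρ ((ρ : E →L[ℂ] E) * K))⁻¹ :
        (WithLp 2 (E × E) →L[ℂ] WithLp 2 (E × E))ˣ) :
        WithLp 2 (E × E) →L[ℂ] WithLp 2 (E × E))‖ ≤ (1 + δ * 8) * (1 + δ * 8) := by
  rw [blkU_val, blkU_inv_val]
  refine mul_le_mul ?_ ?_ (ContinuousLinearMap.opNorm_nonneg _) (by positivity)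
  · refine (sc_norm δ hδ _ _ _ h1 h1).trans ?_
    have := norm_one_eight ρ K h1 hK
    nlinarith
  · refine (sc_norm δ hδ _ _ _ h2 h2).trans ?_
    have := norm_one_eight' ρ K h2 hK
    nlinarith

/-- An invertible operator whose norm times the norm of its inverse is at most one is a scalar
multiple of a unitary. -/
theorem unitary_of_norm (Γ : (H →L[ℂ] H)ˣ)
    (h : ‖(Γ : H →L[ℂ] H)‖ * ‖((Γ⁻¹ : (H →L[ℂ] H)ˣ) : H →L[ℂ] H)‖ ≤ 1) :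
    ∃ U ∈ unitary (H →L[ℂ] H), ∀ T : H →L[ℂ] H,
      (Γ : H →L[ℂ] H) * T * ((Γ⁻¹ : (H →L[ℂ] H)ˣ) : H →L[ℂ] H) = U * T * star U := by
  rcases subsingleton_or_nontrivial H with hH | hH
  · refine ⟨1, one_mem _, fun T => ?_⟩
    ext x
    exact Subsingleton.elim _ _
  · set c : ℝ := ‖(Γ : H →L[ℂ] H)‖ with hc
    have hinv : (((Γ⁻¹ : (H →L[ℂ] H)ˣ) : H →L[ℂ] H)) * (Γ : H →L[ℂ] H) = 1 := Units.inv_mul Γ
    have hinv' : (Γ : H →L[ℂ] H) * (((Γ⁻¹ : (H →L[ℂ] H)ˣ) : H →L[ℂ] H)) = 1 := Units.mul_inv Γ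
    have hc0 : 0 < c := by
      rw [hc, norm_pos_iff]
      exact Γ.ne_zero
    have hcc : (c : ℂ) ≠ 0 := by exact_mod_cast hc0.ne'
    set U : H →L[ℂ] H := ((c : ℂ)⁻¹) • (Γ : H →L[ℂ] H) with hU
    have hUn : ∀ x, ‖U x‖ = ‖x‖ := by
      intro x
      have e1 : ‖U x‖ = c⁻¹ * ‖(Γ : H →L[ℂ] H) x‖ := by
        rw [hU, smul_apply, norm_smul, norm_inv, Complex.norm_real, Real.norm_of_nonneg hc0.le]
      rw [e1]
      apply le_antisymm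
      · rw [inv_mul_le_iff₀ hc0]
        exact (Γ : H →L[ℂ] H).le_opNorm x
      · rw [le_inv_mul_iff₀ hc0]
        have e2 : x = ((Γ⁻¹ : (H →L[ℂ] H)ˣ) : H →L[ℂ] H) ((Γ : H →L[ℂ] H) x) := by
          rw [← mul_apply_eq_comp, hinv]; simp
        have e3 : ‖x‖ ≤ ‖((Γ⁻¹ : (H →L[ℂ] H)ˣ) : H →L[ℂ] H)‖ * ‖(Γ : H →L[ℂ] H) x‖ := by
          conv_lhs => rw [e2]
          exact ContinuousLinearMap.le_opNorm _ _
        calc c * ‖x‖ ≤ c * (‖((Γ⁻¹ : (H →L[ℂ] H)ˣ) : H →L[ℂ] H)‖ * ‖(Γ : H →L[ℂ] H) x‖) :=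
              mul_le_mul_of_nonneg_left e3 hc0.le
          _ = (c * ‖((Γ⁻¹ : (H →L[ℂ] H)ˣ) : H →L[ℂ] H)‖) * ‖(Γ : H →L[ℂ] H) x‖ := by ring
          _ ≤ 1 * ‖(Γ : H →L[ℂ] H) x‖ := mul_le_mul_of_nonneg_right h (norm_nonneg _)
          _ = _ := one_mul _
    have hs : star U * U = 1 := (ContinuousLinearMap.norm_map_iff_adjoint_comp_self U).1 hUn
    have hV : U * ((c : ℂ) • (((Γ⁻¹ : (H →L[ℂ] H)ˣ) : H →L[ℂ] H))) = 1 := by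
      rw [hU, smul_mul_smul_comm, inv_mul_cancel₀ hcc, one_smul, hinv']
    have hsU : star U = (c : ℂ) • (((Γ⁻¹ : (H →L[ℂ] H)ˣ) : H →L[ℂ] H)) := by
      calc star U = star U * (U * ((c : ℂ) • (((Γ⁻¹ : (H →L[ℂ] H)ˣ) : H →L[ℂ] H)))) := by
            rw [hV, mul_one]
        _ = _ := by rw [← mul_assoc, hs, one_mul]
    refine ⟨U, ⟨hs, by rw [hsU, hV]⟩, fun T => ?_⟩
    rw [hsU, hU]
    rw [smul_mul_assoc, smul_mul_smul_comm, inv_mul_cancel₀ hcc, one_smul]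

end Pool.Agent.H68.WH
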