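import Pool.Agent.H68.WH.G

set_option autoImplicit false

open TopologicalSpace

namespace Pool.Agent.H68.WH

theorem separable_of_basis {E : Type} [NormedAddCommGroup E] [InnerProductSpace ℂ E]
    (e : HilbertBasis ℕ ℂ E) : SeparableSpace E := by
  have h1 : IsSeparable (Set.range e) := (Set.countable_range e).isSeparable
  have h2 : IsSeparable (Submodule.span ℂ (Set.range e) : Set E) := h1.span
  have h3 : IsSeparable (closure (Submodule.span ℂ (Set.range e) : Set E)) := h2.closure
  have h4 : closure (Submodule.span ℂ (Set.range e) : Set E) = Set.univ := by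
    rw [← Submodule.topologicalClosure_coe, e.dense_span, Submodule.top_coe]
  rw [h4] at h3
  exact isSeparable_univ_iff.1 h3

theorem separable_sq (E : Type) [NormedAddCommGroup E] [InnerProductSpace ℂ E]
    [SeparableSpace E] : SeparableSpace (WithLp 2 (E × E)) := by
  have e := (WithLp.prodContinuousLinearEquiv 2 ℂ E E).symm.toHomeomorph
  exact e.surjective.denseRange.separableSpace e.continuous

end Pool.Agent.H68.WH
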